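import Pool.Agent.Helper76.P13.StD
import Pool.Agent.Helper84.P13.D1
import Pool.Agent.Helper2.P13.M_RelUni

/-!
# Project P13 (levels `13^n`): solutions of the relations with given leading forms
-/

set_option autoImplicit false

namespace Pool.Agent.Helper80.P13L

open Pool.Agent.Helper76.P13D Pool.Agent.Helper84.P13
open Pool.Agent.Helper2.P13 (Rel13 S13Sor)
open Pool.Agent.Helper10.P13 (pj pj13)

private theorem DfP_eq {q q' : ℕ} (u : Fin 5 → Fn13 q q') : (DfP u : Fn13 q q') =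
    u 0 - op13 1 1 0 1 (u 0) - (u 1 - op13 4 (-1) 1 (-3) (u 1)) - (u 2 - op13 5 (-2) 1 (-5) (u 2)) -
      (u 3 - op13 8 (-5) 1 (-8) (u 3)) - (u 4 - op13 10 (-7) 1 (-9) (u 4)) := rfl

private theorem solP0 {q q' : ℕ} (u : Fin 5 → Fn13 q q') : (solP u 0 : Fn13 q q') = u 0 := rfl

private theorem solP1 {q q' : ℕ} (u : Fin 5 → Fn13 q q') :
    (solP u 1 : Fn13 q q') = u 1 - op13 4 (-1) 1 (-3) (u 1) := rfl

private theorem solP2 {q q' : ℕ} (u : Fin 5 → Fn13 q q') :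
    (solP u 2 : Fn13 q q') = u 2 - op13 5 (-2) 1 (-5) (u 2) := rfl

private theorem solP3 {q q' : ℕ} (u : Fin 5 → Fn13 q q') :
    (solP u 3 : Fn13 q q') = u 3 - op13 8 (-5) 1 (-8) (u 3) := rfl

section led

variable {r s : ℕ}

/-- One term of the defect under `pj c`, `c = 0, 6`. -/
private theorem pterm (c : ℕ) (w : Fin 12) (k0 : (((om12 w) ^ c : ℤ) : ZMod 13) = 1) (d : ℤ)
    (al be : ZMod 13) (v : Fn13 (13 ^ r) (13 ^ s)) (hv : v ∈ Wd13 d) :
    pj c (v - oW w (v + (al • dX v + be • dY v))) + (al • dX (pj (c + 1) v) + be • dY (pj (c + 11) v)) ∈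
      Wd13 (d - 2) := by
  obtain ⟨-, -, -, -, wmono, -, ldx, ldy, -⟩ := low0 r s
  obtain ⟨-, -, -, pw, -, pd, -, -⟩ := pj13 r s
  have hX : al • dX v + be • dY v ∈ Wd13 (d - 1) :=
    Submodule.add_mem _ (Submodule.smul_mem _ _ (ldx _ _ hv)) (Submodule.smul_mem _ _ (ldy _ _ hv))
  have t2 := (pw c w).1 _ _ (Submodule.add_mem _ hv (wmono _ _ (by linarith : d - 1 ≤ d) hX))
  rw [k0] at t2
  have t3 := (pd c).1 _ _ hv
  have t4 := (pd c).2 _ _ hv
  have e : pj c (v - oW w (v + (al • dX v + be • dY v))) +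
      (al • dX (pj (c + 1) v) + be • dY (pj (c + 11) v)) =
      -(pj c * oW w - (1 : ZMod 13) • pj c : Module.End (ZMod 13) (Fn13 (13 ^ r) (13 ^ s)))
        (v + (al • dX v + be • dY v)) -
      al • (pj c * dX - dX * pj (c + 1) : Module.End (ZMod 13) (Fn13 (13 ^ r) (13 ^ s))) v -
      be • (pj c * dY - dY * pj (c + 11) : Module.End (ZMod 13) (Fn13 (13 ^ r) (13 ^ s))) v := by
    simp only [LinearMap.sub_apply, Module.End.mul_apply, LinearMap.smul_apply, map_add, map_sub,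
      map_smul]
    module
  rw [e]
  exact Submodule.sub_mem _ (Submodule.sub_mem _ (Submodule.neg_mem _ (wmono _ _ (by linarith) t2))
    (Submodule.smul_mem _ _ t3)) (Submodule.smul_mem _ _ t4)

/-- The master lemma. -/
private theorem master (hst : TSta) (hw : TLwd)
    (hs : TSur) (d : ℤ) (hd : d < 13 ^ r + 13 ^ s) (u : Fin 5 → Fn13 (13 ^ r) (13 ^ s))
    (hu : ∀ f, u f ∈ Wd13 d)
    (h2 : (u 1 - oW 8 (u 1)) + (u 2 - oW 6 (u 2)) + (u 3 - oW 6 (u 3)) + (u 4 - oW 4 (u 4)) ∈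
      Wd13 (d - 1))
    (h0 : ∀ c : ℕ, c = 0 ∨ c = 6 →
      dX (pj (c + 1) (-u 0 + (3 : ZMod 13) • u 1 + (10 : ZMod 13) • u 2 + u 3 + (11 : ZMod 13) • u 4)) +
      dY (pj (c + 11) ((4 : ZMod 13) • u 1 + (5 : ZMod 13) • u 2 + (8 : ZMod 13) • u 3 +
        (10 : ZMod 13) • u 4)) ∈ Wd13 (d - 2)) :
    ∃ v : Fin 5 → Fn13 (13 ^ r) (13 ^ s), (DfP v : Fn13 (13 ^ r) (13 ^ s)) = 0 ∧
      ∀ f, v f - u f ∈ Wd13 (d - 1) := by
  obtain ⟨-, -, -, -, wmono, -, ldx, ldy, -⟩ := low0 r s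
  obtain ⟨nW, -⟩ := nfa r s
  obtain ⟨p0, -, -, pw, -, pd, -, -⟩ := pj13 r s
  have mo : ∀ {x : Fn13 (13 ^ r) (13 ^ s)} {e e' : ℤ}, x ∈ Wd13 e → e ≤ e' → x ∈ Wd13 e' :=
    fun hx h => wmono _ _ h hx
  obtain ⟨E, hE⟩ : ∃ E : Fn13 (13 ^ r) (13 ^ s), E = DfP u := ⟨_, rfl⟩
  have hE2 := hw r s d u hu
  rw [← hE] at hE2
  have dxy : ∀ (al be : ZMod 13) (f : Fin 5), al • dX (u f) + be • dY (u f) ∈
      (Wd13 (d - 1) : Submodule (ZMod 13) (Fn13 (13 ^ r) (13 ^ s))) := fun al be f =>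
    Submodule.add_mem _ (Submodule.smul_mem _ _ (ldx _ _ (hu f))) (Submodule.smul_mem _ _ (ldy _ _ (hu f)))
  have nxy : ∀ (w : Fin 12) (al be : ZMod 13) (f : Fin 5), oW w (al • dX (u f) + be • dY (u f)) ∈
      (Wd13 (d - 1) : Submodule (ZMod 13) (Fn13 (13 ^ r) (13 ^ s))) := fun w al be f =>
    mo (nW w _ _ (dxy al be f)) (by linarith)
  -- normal form of the congruence
  have hE3 : E + dX (u 0) + (u 1 - oW 8 (u 1 + ((3 : ZMod 13) • dX (u 1) + (4 : ZMod 13) • dY (u 1)))) +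
      (u 2 - oW 6 (u 2 + ((10 : ZMod 13) • dX (u 2) + (5 : ZMod 13) • dY (u 2)))) +
      (u 3 - oW 6 (u 3 + ((1 : ZMod 13) • dX (u 3) + (8 : ZMod 13) • dY (u 3)))) +
      (u 4 - oW 4 (u 4 + ((11 : ZMod 13) • dX (u 4) + (10 : ZMod 13) • dY (u 4)))) ∈ Wd13 (d - 2) := by
    rw [one_smul, ← add_assoc (u 1), ← add_assoc (u 2), ← add_assoc (u 3), ← add_assoc (u 4)]
    exact hE2
  obtain ⟨Z1, hZ1⟩ : ∃ Z : Fn13 (13 ^ r) (13 ^ s), Z = u 1 - oW 8 (u 1 + ((3 : ZMod 13) • dX (u 1) +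
    (4 : ZMod 13) • dY (u 1))) := ⟨_, rfl⟩
  obtain ⟨Z2, hZ2⟩ : ∃ Z : Fn13 (13 ^ r) (13 ^ s), Z = u 2 - oW 6 (u 2 + ((10 : ZMod 13) • dX (u 2) +
    (5 : ZMod 13) • dY (u 2))) := ⟨_, rfl⟩
  obtain ⟨Z3, hZ3⟩ : ∃ Z : Fn13 (13 ^ r) (13 ^ s), Z = u 3 - oW 6 (u 3 + ((1 : ZMod 13) • dX (u 3) +
    (8 : ZMod 13) • dY (u 3))) := ⟨_, rfl⟩
  obtain ⟨Z4, hZ4⟩ : ∃ Z : Fn13 (13 ^ r) (13 ^ s), Z = u 4 - oW 4 (u 4 + ((11 : ZMod 13) • dX (u 4) +
    (10 : ZMod 13) • dY (u 4))) := ⟨_, rfl⟩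
  rw [← hZ1, ← hZ2, ← hZ3, ← hZ4] at hE3
  have hE1 : E ∈ Wd13 (d - 1) := by
    have e : E = (E + dX (u 0) + Z1 + Z2 + Z3 + Z4) - dX (u 0) -
      ((u 1 - oW 8 (u 1)) + (u 2 - oW 6 (u 2)) + (u 3 - oW 6 (u 3)) + (u 4 - oW 4 (u 4))) +
      oW 8 ((3 : ZMod 13) • dX (u 1) + (4 : ZMod 13) • dY (u 1)) +
      oW 6 ((10 : ZMod 13) • dX (u 2) + (5 : ZMod 13) • dY (u 2)) +
      oW 6 ((1 : ZMod 13) • dX (u 3) + (8 : ZMod 13) • dY (u 3)) +
      oW 4 ((11 : ZMod 13) • dX (u 4) + (10 : ZMod 13) • dY (u 4)) := by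
      rw [hZ1, hZ2, hZ3, hZ4, map_add (oW 8) (u 1), map_add (oW 6) (u 2), map_add (oW 6) (u 3),
        map_add (oW 4) (u 4)]
      abel
    rw [e]
    exact Submodule.add_mem _ (Submodule.add_mem _ (Submodule.add_mem _ (Submodule.add_mem _
      (Submodule.sub_mem _ (Submodule.sub_mem _ (mo hE3 (by linarith)) (ldx _ _ (hu 0))) h2)
      (nxy 8 3 4 1)) (nxy 6 10 5 2)) (nxy 6 1 8 3)) (nxy 4 11 10 4)
  have hp0 : ∀ c : ℕ, c = 0 ∨ c = 6 → pj c E ∈ Wd13 (d - 1 - 1) := by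
    intro c hc
    have k8 : (((om12 8) ^ c : ℤ) : ZMod 13) = 1 := by
      rcases hc with rfl | rfl <;> decide +kernel
    have k6 : (((om12 6) ^ c : ℤ) : ZMod 13) = 1 := by
      rcases hc with rfl | rfl <;> decide +kernel
    have k4 : (((om12 4) ^ c : ℤ) : ZMod 13) = 1 := by
      rcases hc with rfl | rfl <;> decide +kernel
    have t1 := p0 c _ _ hE3
    have t0 := (pd c).1 _ _ (hu 0)
    have q1 := pterm c 8 k8 d 3 4 (u 1) (hu 1)
    have q2 := pterm c 6 k6 d 10 5 (u 2) (hu 2)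
    have q3 := pterm c 6 k6 d 1 8 (u 3) (hu 3)
    have q4 := pterm c 4 k4 d 11 10 (u 4) (hu 4)
    rw [← hZ1] at q1
    rw [← hZ2] at q2
    rw [← hZ3] at q3
    rw [← hZ4] at q4
    have e : pj c E = pj c (E + dX (u 0) + Z1 + Z2 + Z3 + Z4) -
        (pj c * dX - dX * pj (c + 1) : Module.End (ZMod 13) (Fn13 (13 ^ r) (13 ^ s))) (u 0) -
        (pj c Z1 + ((3 : ZMod 13) • dX (pj (c + 1) (u 1)) + (4 : ZMod 13) • dY (pj (c + 11) (u 1)))) -
        (pj c Z2 + ((10 : ZMod 13) • dX (pj (c + 1) (u 2)) + (5 : ZMod 13) • dY (pj (c + 11) (u 2)))) -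
        (pj c Z3 + ((1 : ZMod 13) • dX (pj (c + 1) (u 3)) + (8 : ZMod 13) • dY (pj (c + 11) (u 3)))) -
        (pj c Z4 + ((11 : ZMod 13) • dX (pj (c + 1) (u 4)) + (10 : ZMod 13) • dY (pj (c + 11) (u 4)))) +
        (dX (pj (c + 1) (-u 0 + (3 : ZMod 13) • u 1 + (10 : ZMod 13) • u 2 + u 3 +
          (11 : ZMod 13) • u 4)) +
          dY (pj (c + 11) ((4 : ZMod 13) • u 1 + (5 : ZMod 13) • u 2 + (8 : ZMod 13) • u 3 +
            (10 : ZMod 13) • u 4))) := by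
      simp only [LinearMap.sub_apply, Module.End.mul_apply, map_add, map_neg,
        map_smul]
      module
    rw [e]
    have ed : d - 1 - 1 = d - 2 := by ring
    rw [ed]
    exact Submodule.add_mem _ (Submodule.sub_mem _ (Submodule.sub_mem _ (Submodule.sub_mem _
      (Submodule.sub_mem _ (Submodule.sub_mem _ (mo t1 (by linarith)) t0) q1) q2) q3) q4) (h0 c hc)
  obtain ⟨a, b, ha, hb, hE'⟩ := hst r s (d - 1) E hE1 (hp0 0 (Or.inl rfl)) (hp0 6 (Or.inr rfl))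
  obtain ⟨G, hG, hGE⟩ := hs r s (d - 1 - 1) _ (by linarith) hE'
  have ed : d - 1 - 1 + 1 = d - 1 := by ring
  rw [ed] at hG
  refine ⟨![u 0 - G 0, u 1 + a - G 1, u 2 + b - G 2, u 3 - G 3, u 4 - G 4], ?_, ?_⟩
  · have e1 : (DfP ![u 0 - G 0, u 1 + a - G 1, u 2 + b - G 2, u 3 - G 3, u 4 - G 4] :
        Fn13 (13 ^ r) (13 ^ s)) =
        (u 0 - G 0) - op13 1 1 0 1 (u 0 - G 0) - ((u 1 + a - G 1) - op13 4 (-1) 1 (-3) (u 1 + a - G 1)) -
        ((u 2 + b - G 2) - op13 5 (-2) 1 (-5) (u 2 + b - G 2)) -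
        ((u 3 - G 3) - op13 8 (-5) 1 (-8) (u 3 - G 3)) -
        ((u 4 - G 4) - op13 10 (-7) 1 (-9) (u 4 - G 4)) := rfl
    have e2 := DfP_eq u
    have e3 := DfP_eq G
    rw [hGE, hE, e2] at e3
    rw [e1]
    simp only [map_sub, map_add]
    have e4 := sub_eq_zero.mpr e3
    rw [← e4]
    abel
  · intro f
    fin_cases f
    · change u 0 - G 0 - u 0 ∈ Wd13 (d - 1)
      have e : u 0 - G 0 - u 0 = -G 0 := by abel
      rw [e]
      exact Submodule.neg_mem _ (hG 0)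
    · change u 1 + a - G 1 - u 1 ∈ Wd13 (d - 1)
      have e : u 1 + a - G 1 - u 1 = a - G 1 := by abel
      rw [e]
      exact Submodule.sub_mem _ ha (hG 1)
    · change u 2 + b - G 2 - u 2 ∈ Wd13 (d - 1)
      have e : u 2 + b - G 2 - u 2 = b - G 2 := by abel
      rw [e]
      exact Submodule.sub_mem _ hb (hG 2)
    · change u 3 - G 3 - u 3 ∈ Wd13 (d - 1)
      have e : u 3 - G 3 - u 3 = -G 3 := by abel
      rw [e]
      exact Submodule.neg_mem _ (hG 3)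
    · change u 4 - G 4 - u 4 ∈ Wd13 (d - 1)
      have e : u 4 - G 4 - u 4 = -G 4 := by abel
      rw [e]
      exact Submodule.neg_mem _ (hG 4)

/-- The leading form of one term of the solution. -/
private theorem sterm (d : ℤ) (w : Fin 12) (O : Module.End (ZMod 13) (Fn13 (13 ^ r) (13 ^ s)))
    (hO : Lw (O - oW w) 1)
    (P v : Fn13 (13 ^ r) (13 ^ s)) (m t x : ZMod 13) (hP : P ∈ Wd13 d) (hx : oW w P - x • P ∈ Wd13 (d - 1))
    (hv : v - m • P ∈ Wd13 (d - 1)) (ht : t = (1 - x) * m) : (v - O v) - t • P ∈ Wd13 (d - 1) := by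
  obtain ⟨-, -, -, -, wmono, -⟩ := low0 r s
  obtain ⟨nW, -⟩ := nfa r s
  have hvd : v ∈ Wd13 d := by
    have e : v = (v - m • P) + m • P := by abel
    rw [e]
    exact Submodule.add_mem _ (wmono _ _ (by linarith) hv) (Submodule.smul_mem _ _ hP)
  have n1 : oW w (v - m • P) ∈ Wd13 (d - 1) := by
    have := nW w _ _ hv
    rwa [sub_zero] at this
  have n2 : O v - oW w v ∈ Wd13 (d - 1) := hO d v hvd
  have e : (v - O v) - t • P = (v - m • P) - oW w (v - m • P) - (O v - oW w v) -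
      m • (oW w P - x • P) := by
    rw [ht, map_sub, map_smul]
    module
  rw [e]
  exact Submodule.sub_mem _ (Submodule.sub_mem _ (Submodule.sub_mem _ hv n1) n2)
    (Submodule.smul_mem _ _ hx)

/-- The core lemma: one monomial. -/
private theorem core (hst : TSta) (hw : TLwd)
    (hs : TSur) (A B k : ℕ) (hA : A < 13 ^ r) (hB : B < 13 ^ s) (hk : ((A : ℤ) - B - (k : ℤ)) % 12 = 0)
    (hk6 : k < 12) (m0 m1 m2 m3 m4 t1 t2 t3 : ZMod 13)
    (c1 : t1 = (1 - (((om12 8) ^ k : ℤ) : ZMod 13)) * m1)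
    (c2 : t2 = (1 - (((om12 6) ^ k : ℤ) : ZMod 13)) * m2)
    (c3 : t3 = (1 - (((om12 6) ^ k : ℤ) : ZMod 13)) * m3)
    (c4 : t1 + t2 + t3 + (1 - (((om12 4) ^ k : ℤ) : ZMod 13)) * m4 = 0)
    (c5 : k = 1 ∨ k = 7 → -m0 + 3 * m1 + 10 * m2 + m3 + 11 * m4 = 0)
    (c6 : k = 11 ∨ k = 5 → 4 * m1 + 5 * m2 + 8 * m3 + 10 * m4 = 0) :
    ∃ v : Fin 5 → Fn13 (13 ^ r) (13 ^ s), (DfP v : Fn13 (13 ^ r) (13 ^ s)) = 0 ∧
      solP v 0 - m0 • bb13 A B ∈ Wd13 ((A : ℤ) + B - 1) ∧ solP v 1 - t1 • bb13 A B ∈ Wd13 ((A : ℤ) + B - 1) ∧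
      solP v 2 - t2 • bb13 A B ∈ Wd13 ((A : ℤ) + B - 1) ∧ solP v 3 - t3 • bb13 A B ∈ Wd13 ((A : ℤ) + B - 1) := by
  obtain ⟨-, -, -, -, wmono, -, ldx, ldy, -⟩ := low0 r s
  obtain ⟨nW, -⟩ := nfa r s
  obtain ⟨b1, -⟩ := bb r s
  obtain ⟨-, -, -, pw, -, -, -, pc⟩ := pj13 r s
  obtain ⟨d, hd⟩ : ∃ d : ℤ, d = (A : ℤ) + B := ⟨_, rfl⟩
  have hdlt : d < 13 ^ r + 13 ^ s := by
    have h5 : (A : ℤ) < 13 ^ r := by exact_mod_cast hA
    have h6 : (B : ℤ) < 13 ^ s := by exact_mod_cast hB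
    rw [hd]
    linarith
  obtain ⟨P, hP⟩ : ∃ P : Fn13 (13 ^ r) (13 ^ s), P = bb13 A B := ⟨_, rfl⟩
  have hPW : P ∈ Wd13 d := by
    rw [hP, hd]
    exact b1 _ _ hA hB
  rw [← hP, ← hd]
  have n0 : pj k P - P ∈ Wd13 (d - 1) := by
    have h := pc k A B hA hB
    rw [if_pos hk, ← hP, ← hd] at h
    exact h
  have n1 : ∀ c' : ℕ, ((A : ℤ) - B - (c' : ℤ)) % 12 ≠ 0 → pj c' P ∈ Wd13 (d - 1) := by
    intro c' hc'
    have h := pc c' A B hA hB
    rw [if_neg hc', sub_zero, ← hP, ← hd] at h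
    exact h
  have act : ∀ w : Fin 12, oW w P - (((om12 w) ^ k : ℤ) : ZMod 13) • P ∈ Wd13 (d - 1) := by
    intro w
    have q1 := nW w _ _ n0
    rw [sub_zero] at q1
    have q2 := (pw k w).2 _ _ hPW
    have e : oW w P - (((om12 w) ^ k : ℤ) : ZMod 13) • P = -oW w (pj k P - P) +
        (oW w * pj k - (((om12 w) ^ k : ℤ) : ZMod 13) • pj k : Module.End (ZMod 13) (Fn13 (13 ^ r) (13 ^ s))) P +
        (((om12 w) ^ k : ℤ) : ZMod 13) • (pj k P - P) := by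
      simp only [LinearMap.sub_apply, Module.End.mul_apply, LinearMap.smul_apply, map_sub]
      module
    rw [e]
    exact Submodule.add_mem _ (Submodule.add_mem _ (Submodule.neg_mem _ q1)
      (wmono _ _ (by linarith) q2)) (Submodule.smul_mem _ _ n0)
  have a8 := act 8
  have a6 := act 6
  have a4 := act 4
  obtain ⟨x8, hx8⟩ : ∃ x : ZMod 13, x = (((om12 8) ^ k : ℤ) : ZMod 13) := ⟨_, rfl⟩
  obtain ⟨x6, hx6⟩ : ∃ x : ZMod 13, x = (((om12 6) ^ k : ℤ) : ZMod 13) := ⟨_, rfl⟩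
  obtain ⟨x4, hx4⟩ : ∃ x : ZMod 13, x = (((om12 4) ^ k : ℤ) : ZMod 13) := ⟨_, rfl⟩
  rw [← hx8] at a8 c1
  rw [← hx6] at a6 c2 c3
  rw [← hx4] at a4 c4
  clear hx8 hx6 hx4 act
  obtain ⟨v, hv, hvu⟩ := master hst hw hs d hdlt ![m0 • P, m1 • P, m2 • P, m3 • P, m4 • P]
    (by
      intro f
      fin_cases f
      · exact Submodule.smul_mem _ _ hPW
      · exact Submodule.smul_mem _ _ hPW
      · exact Submodule.smul_mem _ _ hPW
      · exact Submodule.smul_mem _ _ hPW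
      · exact Submodule.smul_mem _ _ hPW)
    (by
      change (m1 • P - oW 8 (m1 • P)) + (m2 • P - oW 6 (m2 • P)) + (m3 • P - oW 6 (m3 • P)) +
        (m4 • P - oW 4 (m4 • P)) ∈ Wd13 (d - 1)
      have e : (m1 • P - oW 8 (m1 • P)) + (m2 • P - oW 6 (m2 • P)) + (m3 • P - oW 6 (m3 • P)) +
          (m4 • P - oW 4 (m4 • P)) = (t1 + t2 + t3 + (1 - x4) * m4) • P - m1 • (oW 8 P - x8 • P) -
          m2 • (oW 6 P - x6 • P) - m3 • (oW 6 P - x6 • P) - m4 • (oW 4 P - x4 • P) := by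
        rw [c3, c2, c1]
        simp only [map_smul]
        module
      rw [e, c4, zero_smul, zero_sub]
      exact Submodule.sub_mem _ (Submodule.sub_mem _ (Submodule.sub_mem _ (Submodule.neg_mem _
        (Submodule.smul_mem _ _ a8)) (Submodule.smul_mem _ _ a6)) (Submodule.smul_mem _ _ a6))
        (Submodule.smul_mem _ _ a4))
    (by
      intro c hc
      change dX (pj (c + 1) (-(m0 • P) + (3 : ZMod 13) • m1 • P + (10 : ZMod 13) • m2 • P + m3 • P +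
        (11 : ZMod 13) • m4 • P)) +
        dY (pj (c + 11) ((4 : ZMod 13) • m1 • P + (5 : ZMod 13) • m2 • P + (8 : ZMod 13) • m3 • P +
          (10 : ZMod 13) • m4 • P)) ∈ Wd13 (d - 2)
      have e : dX (pj (c + 1) (-(m0 • P) + (3 : ZMod 13) • m1 • P + (10 : ZMod 13) • m2 • P + m3 • P +
        (11 : ZMod 13) • m4 • P)) +
        dY (pj (c + 11) ((4 : ZMod 13) • m1 • P + (5 : ZMod 13) • m2 • P + (8 : ZMod 13) • m3 • P +
          (10 : ZMod 13) • m4 • P)) = (-m0 + 3 * m1 + 10 * m2 + m3 + 11 * m4) • dX (pj (c + 1) P) +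
            (4 * m1 + 5 * m2 + 8 * m3 + 10 * m4) • dY (pj (c + 11) P) := by
        simp only [map_add, map_neg, map_smul]
        module
      rw [e]
      have ed : d - 2 = d - 1 - 1 := by ring
      rw [ed]
      apply Submodule.add_mem
      · by_cases h1 : k = 1 ∨ k = 7
        · rw [c5 h1, zero_smul]
          exact Submodule.zero_mem _
        · exact Submodule.smul_mem _ _ (ldx _ _ (n1 (c + 1) (by push_cast; omega)))
      · by_cases h5 : k = 11 ∨ k = 5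
        · rw [c6 h5, zero_smul]
          exact Submodule.zero_mem _
        · exact Submodule.smul_mem _ _ (ldy _ _ (n1 (c + 11) (by push_cast; omega))))
  have v0 : v 0 - m0 • P ∈ Wd13 (d - 1) := hvu 0
  have v1 : v 1 - m1 • P ∈ Wd13 (d - 1) := hvu 1
  have v2 : v 2 - m2 • P ∈ Wd13 (d - 1) := hvu 2
  have v3 : v 3 - m3 • P ∈ Wd13 (d - 1) := hvu 3
  have s1 := sterm d 8 (op13 4 (-1) 1 (-3))
    (((lw1 r s 4 (-1) 1 (-3) (by decide) (by decide)).2 8 (by decide)).1) P (v 1) m1 t1 x8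
    hPW a8 v1 c1
  have s2 := sterm d 6 (op13 5 (-2) 1 (-5))
    (((lw1 r s 5 (-2) 1 (-5) (by decide) (by decide)).2 6 (by decide)).1) P (v 2) m2 t2 x6
    hPW a6 v2 c2
  have s3 := sterm d 6 (op13 8 (-5) 1 (-8))
    (((lw1 r s 8 (-5) 1 (-8) (by decide) (by decide)).2 6 (by decide)).1) P (v 3) m3 t3 x6
    hPW a6 v3 c3
  exact ⟨v, hv, v0, s1, s2, s3⟩

/-- A solution of the equation gives a solution of the relations. -/
private theorem relP (ho : S13Sor) (v : Fin 5 → Fn13 (13 ^ r) (13 ^ s))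
    (hv : (DfP v : Fn13 (13 ^ r) (13 ^ s)) = 0) : Rel13 (solP v : Fin 4 → Fn13 (13 ^ r) (13 ^ s)) :=
  ho (ZMod 13) _ r s (v 0) (v 1) (v 2) (v 3) (v 4) fun x y => congrFun (congrFun hv x) y

private theorem DfP_add (v v' : Fin 5 → Fn13 (13 ^ r) (13 ^ s)) :
    (DfP (fun f => v f + v' f) : Fn13 (13 ^ r) (13 ^ s)) = DfP v + DfP v' := by
  rw [DfP_eq, DfP_eq, DfP_eq]
  simp only [map_add]
  abel

/-- Assembly. -/
private theorem asm (ho : S13Sor) (e : ℤ) (T : Fin 4 → Fn13 (13 ^ r) (13 ^ s))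
    (T0 T1 T2 T3 : Fn13 (13 ^ r) (13 ^ s))
    (e0 : T 0 = T0) (e1 : T 1 = T1) (e2 : T 2 = T2) (e3 : T 3 = T3)
    (h : ∃ v : Fin 5 → Fn13 (13 ^ r) (13 ^ s), (DfP v : Fn13 (13 ^ r) (13 ^ s)) = 0 ∧
      solP v 0 - T0 ∈ Wd13 e ∧ solP v 1 - T1 ∈ Wd13 e ∧ solP v 2 - T2 ∈ Wd13 e ∧
      solP v 3 - T3 ∈ Wd13 e) :
    ∃ F : Fin 4 → Fn13 (13 ^ r) (13 ^ s), Rel13 F ∧ ∀ f : Fin 4, F f - T f ∈ Wd13 e := by
  obtain ⟨v, hv, f0, f1, f2, f3⟩ := h
  refine ⟨solP v, relP ho v hv, fun f => ?_⟩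
  fin_cases f
  · change solP v 0 - T 0 ∈ Wd13 e
    rw [e0]
    exact f0
  · change solP v 1 - T 1 ∈ Wd13 e
    rw [e1]
    exact f1
  · change solP v 2 - T 2 ∈ Wd13 e
    rw [e2]
    exact f2
  · change solP v 3 - T 3 ∈ Wd13 e
    rw [e3]
    exact f3

private theorem bb_top (B : ℕ) : (bb13 (13 ^ r) B : Fn13 (13 ^ r) (13 ^ s)) = 0 := by
  funext x y
  have h : x.val.choose (13 ^ r) = 0 := Nat.choose_eq_zero_of_lt (ZMod.val_lt x)
  simp [bb13, h]

end led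

/-- All families but the last. -/
private theorem gen (ho : S13Sor) (hst : TSta) (hw : TLwd) (hs : TSur) (r s c i j k : ℕ) (h13 : c ≠ 13)
    (hA : aM c + i + 13 * j < 13 ^ r) (hB : bM c + i + j < 13 ^ s)
    (hk : ((aM c : ℤ) - bM c - (k : ℤ)) % 12 = 0) (hk6 : k < 12) (m1 m2 m3 m4 : ZMod 13)
    (c1 : tpM c 1 = (1 - (((om12 8) ^ k : ℤ) : ZMod 13)) * m1)
    (c2 : tpM c 2 = (1 - (((om12 6) ^ k : ℤ) : ZMod 13)) * m2)
    (c3 : tpM c 3 = (1 - (((om12 6) ^ k : ℤ) : ZMod 13)) * m3)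
    (c4 : tpM c 1 + tpM c 2 + tpM c 3 + (1 - (((om12 4) ^ k : ℤ) : ZMod 13)) * m4 = 0)
    (c5 : k = 1 ∨ k = 7 → -tpM c 0 + 3 * m1 + 10 * m2 + m3 + 11 * m4 = 0)
    (c6 : k = 11 ∨ k = 5 → 4 * m1 + 5 * m2 + 8 * m3 + 10 * m4 = 0) :
    ∃ F : Fin 4 → Fn13 (13 ^ r) (13 ^ s), Rel13 F ∧
      ∀ f : Fin 4, F f - ldM c i j f ∈ Wd13 ((dgM c i j : ℤ) - 1) := by
  have hdd : ((dgM c i j : ℕ) : ℤ) - 1 = ((aM c + i + 13 * j : ℕ) : ℤ) + ((bM c + i + j : ℕ) : ℤ) - 1 := by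
    unfold dgM
    push_cast
    ring
  have hld : ∀ f : Fin 4, (ldM c i j f : Fn13 (13 ^ r) (13 ^ s)) =
      tpM c f • bb13 (aM c + i + 13 * j) (bM c + i + j) := by
    intro f
    unfold ldM
    rw [if_neg h13, add_zero]
  rw [hdd]
  exact asm ho _ _ _ _ _ _ (hld 0) (hld 1) (hld 2) (hld 3) (core hst hw hs _ _ k hA hB
    (by push_cast; omega) hk6 (tpM c 0) m1 m2 m3 m4 _ _ _ c1 c2 c3 c4 c5 c6)

/-- The last family. -/
private theorem last (ho : S13Sor) (hst : TSta) (hw : TLwd) (hs : TSur) (r s i j : ℕ)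
    (hA : 12 + i + 13 * j < 13 ^ r) (hB : 1 + i + j < 13 ^ s) :
    ∃ F : Fin 4 → Fn13 (13 ^ r) (13 ^ s), Rel13 F ∧
      ∀ f : Fin 4, F f - ldM 13 i j f ∈ Wd13 ((dgM 13 i j : ℤ) - 1) := by
  obtain ⟨A, hAd⟩ : ∃ A, A = 12 + i + 13 * j := ⟨_, rfl⟩
  obtain ⟨B, hBd⟩ : ∃ B, B = 1 + i + j := ⟨_, rfl⟩
  have q1 : aM 13 = 12 := rfl
  have q2 : bM 13 = 1 := rfl
  have hdd : ((dgM 13 i j : ℕ) : ℤ) - 1 = (A : ℤ) + B - 1 := by
    have : dgM 13 i j = A + B := by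
      unfold dgM
      rw [q1, q2, hAd, hBd]
      ring
    rw [this]
    push_cast
    ring
  have hld : ∀ f : Fin 4, (ldM 13 i j f : Fn13 (13 ^ r) (13 ^ s)) =
      tpM 13 f • bb13 A B + (![0, 9, 5, 12] f : ZMod 13) • bb13 (A + 1) (B - 1) := by
    intro f
    unfold ldM
    rw [if_pos rfl, q1, q2, ← hAd, ← hBd]
  rw [hdd]
  rw [← hAd] at hA
  rw [← hBd] at hB
  have hkk : ((A : ℤ) - B - ((11 : ℕ) : ℤ)) % 12 = 0 := by
    rw [hAd, hBd]
    push_cast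
    omega
  obtain ⟨v, hv, f0, f1, f2, f3⟩ := core hst hw hs A B 11 hA hB hkk (by norm_num)
    (tpM 13 0) 7 2 5 0 (tpM 13 1) (tpM 13 2) (tpM 13 3) (by decide +kernel) (by decide +kernel)
    (by decide +kernel) (by decide +kernel) (by decide +kernel) (by decide +kernel)
  by_cases hA1 : A + 1 < 13 ^ r
  · have hB2 : B - 1 < 13 ^ s := by omega
    have hkk' : (((A + 1 : ℕ) : ℤ) - ((B - 1 : ℕ) : ℤ) - ((1 : ℕ) : ℤ)) % 12 = 0 := by
      omega
    obtain ⟨v', hv', g0, g1, g2, g3⟩ := core hst hw hs (A + 1) (B - 1) 1 hA1 hB2 hkk'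
      (by norm_num) (![0, 9, 5, 12] (0 : Fin 4)) 7 9 6 0 (![0, 9, 5, 12] (1 : Fin 4))
      (![0, 9, 5, 12] (2 : Fin 4)) (![0, 9, 5, 12] (3 : Fin 4)) (by decide +kernel)
      (by decide +kernel) (by decide +kernel) (by decide +kernel) (by decide +kernel)
      (by decide +kernel)
    have ed : ((A + 1 : ℕ) : ℤ) + ((B - 1 : ℕ) : ℤ) - 1 = (A : ℤ) + B - 1 := by omega
    rw [ed] at g0 g1 g2 g3
    refine asm ho _ _ _ _ _ _ (hld 0) (hld 1) (hld 2) (hld 3) ⟨fun f => v f + v' f, ?_, ?_, ?_, ?_, ?_⟩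
    · rw [DfP_add, hv, hv', add_zero]
    · rw [solP0] at f0 g0 ⊢
      rw [add_sub_add_comm]
      exact Submodule.add_mem _ f0 g0
    · rw [solP1] at f1 g1 ⊢
      have e : v 1 + v' 1 - op13 4 (-1) 1 (-3) (v 1 + v' 1) -
          (tpM 13 1 • bb13 A B + (![0, 9, 5, 12] (1 : Fin 4) : ZMod 13) • bb13 (A + 1) (B - 1)) =
          (v 1 - op13 4 (-1) 1 (-3) (v 1) - tpM 13 1 • bb13 A B) +
          (v' 1 - op13 4 (-1) 1 (-3) (v' 1) -
            (![0, 9, 5, 12] (1 : Fin 4) : ZMod 13) • bb13 (A + 1) (B - 1)) := by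
        rw [map_add]
        abel
      rw [e]
      exact Submodule.add_mem _ f1 g1
    · rw [solP2] at f2 g2 ⊢
      have e : v 2 + v' 2 - op13 5 (-2) 1 (-5) (v 2 + v' 2) -
          (tpM 13 2 • bb13 A B + (![0, 9, 5, 12] (2 : Fin 4) : ZMod 13) • bb13 (A + 1) (B - 1)) =
          (v 2 - op13 5 (-2) 1 (-5) (v 2) - tpM 13 2 • bb13 A B) +
          (v' 2 - op13 5 (-2) 1 (-5) (v' 2) -
            (![0, 9, 5, 12] (2 : Fin 4) : ZMod 13) • bb13 (A + 1) (B - 1)) := by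
        rw [map_add]
        abel
      rw [e]
      exact Submodule.add_mem _ f2 g2
    · rw [solP3] at f3 g3 ⊢
      have e : v 3 + v' 3 - op13 8 (-5) 1 (-8) (v 3 + v' 3) -
          (tpM 13 3 • bb13 A B + (![0, 9, 5, 12] (3 : Fin 4) : ZMod 13) • bb13 (A + 1) (B - 1)) =
          (v 3 - op13 8 (-5) 1 (-8) (v 3) - tpM 13 3 • bb13 A B) +
          (v' 3 - op13 8 (-5) 1 (-8) (v' 3) -
            (![0, 9, 5, 12] (3 : Fin 4) : ZMod 13) • bb13 (A + 1) (B - 1)) := by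
        rw [map_add]
        abel
      rw [e]
      exact Submodule.add_mem _ f3 g3
  · have hA2 : A + 1 = 13 ^ r := by omega
    have hld' : ∀ f : Fin 4, (ldM 13 i j f : Fn13 (13 ^ r) (13 ^ s)) = tpM 13 f • bb13 A B := by
      intro f
      rw [hld f, hA2, bb_top, smul_zero, add_zero]
    exact asm ho _ _ _ _ _ _ (hld' 0) (hld' 1) (hld' 2) (hld' 3) ⟨v, hv, f0, f1, f2, f3⟩

theorem hLed' (ho : S13Sor) (hs : TSta) (hw : TLwd) (hu : TSur) : TLed := by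
  intro r s c i j hc hA hB
  interval_cases c
  · exact gen ho hs hw hu r s 0 i j 0 (by decide) hA hB (by decide) (by decide) 0 0 0 0
      (by decide +kernel) (by decide +kernel) (by decide +kernel) (by decide +kernel)
      (by decide +kernel) (by decide +kernel)
  · exact gen ho hs hw hu r s 1 i j 1 (by decide) hA hB (by decide) (by decide) 5 12 8 0
      (by decide +kernel) (by decide +kernel) (by decide +kernel) (by decide +kernel)
      (by decide +kernel) (by decide +kernel)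
  · exact gen ho hs hw hu r s 2 i j 2 (by decide) hA hB (by decide) (by decide) 6 0 0 5
      (by decide +kernel) (by decide +kernel) (by decide +kernel) (by decide +kernel)
      (by decide +kernel) (by decide +kernel)
  · exact gen ho hs hw hu r s 3 i j 4 (by decide) hA hB (by decide) (by decide) 8 0 0 7
      (by decide +kernel) (by decide +kernel) (by decide +kernel) (by decide +kernel)
      (by decide +kernel) (by decide +kernel)
  · exact gen ho hs hw hu r s 4 i j 5 (by decide) hA hB (by decide) (by decide) 7 2 5 0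
      (by decide +kernel) (by decide +kernel) (by decide +kernel) (by decide +kernel)
      (by decide +kernel) (by decide +kernel)
  · exact gen ho hs hw hu r s 5 i j 7 (by decide) hA hB (by decide) (by decide) 5 12 8 0
      (by decide +kernel) (by decide +kernel) (by decide +kernel) (by decide +kernel)
      (by decide +kernel) (by decide +kernel)
  · exact gen ho hs hw hu r s 6 i j 2 (by decide) hA hB (by decide) (by decide) 1 0 0 3
      (by decide +kernel) (by decide +kernel) (by decide +kernel) (by decide +kernel)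
      (by decide +kernel) (by decide +kernel)
  · exact gen ho hs hw hu r s 7 i j 4 (by decide) hA hB (by decide) (by decide) 1 0 0 9
      (by decide +kernel) (by decide +kernel) (by decide +kernel) (by decide +kernel)
      (by decide +kernel) (by decide +kernel)
  · exact gen ho hs hw hu r s 8 i j 6 (by decide) hA hB (by decide) (by decide) 0 0 0 0
      (by decide +kernel) (by decide +kernel) (by decide +kernel) (by decide +kernel)
      (by decide +kernel) (by decide +kernel)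
  · exact gen ho hs hw hu r s 9 i j 8 (by decide) hA hB (by decide) (by decide) 1 0 0 3
      (by decide +kernel) (by decide +kernel) (by decide +kernel) (by decide +kernel)
      (by decide +kernel) (by decide +kernel)
  · exact gen ho hs hw hu r s 10 i j 8 (by decide) hA hB (by decide) (by decide) 6 0 0 5
      (by decide +kernel) (by decide +kernel) (by decide +kernel) (by decide +kernel)
      (by decide +kernel) (by decide +kernel)
  · exact gen ho hs hw hu r s 11 i j 10 (by decide) hA hB (by decide) (by decide) 1 0 0 9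
      (by decide +kernel) (by decide +kernel) (by decide +kernel) (by decide +kernel)
      (by decide +kernel) (by decide +kernel)
  · exact gen ho hs hw hu r s 12 i j 10 (by decide) hA hB (by decide) (by decide) 8 0 0 7
      (by decide +kernel) (by decide +kernel) (by decide +kernel) (by decide +kernel)
      (by decide +kernel) (by decide +kernel)
  · exact last ho hs hw hu r s i j hA hB

theorem hLed (hs : TSta) (hw : TLwd) (hu : TSur) : TLed :=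
  hLed' (Pool.Agent.Helper2.P13.hSor trm) hs hw hu

end Pool.Agent.Helper80.P13L
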